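import Mathlib
import Pool.Agent.H173R2.PackDefs
import Pool.Agent.H173R2.PackOdd

namespace Pool.Agent.Results.MP_9569f1_co.MinDeficiencyTwo

open Pool.Agent.H173R2.Packing Pool.Agent.H173R2.Odd

/-- For a finite field `K` of odd order `q ≥ 5`, the space `PG(3,q)` has a complete partial
packing of deficiency `2` and none of deficiency `1`. -/
theorem field_case (K : Type) [Field K] [Fintype K] (hodd : Odd (Fintype.card K))
    (h5 : 5 ≤ Fintype.card K) :
    (∃ P : Set (Set (Submodule K (Fin 4 → K))), IsCompletePartialPacking 2 P) ∧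
    ¬ ∃ P : Set (Set (Submodule K (Fin 4 → K))), IsCompletePartialPacking 1 P := by
  classical
  have hcard : Fintype.card K % 2 = 1 := Nat.odd_iff.mp hodd
  have hchar : ringChar K ≠ 2 := by
    intro h
    have := FiniteField.even_card_iff_char_two.mp h
    omega
  have h2 : (2 : K) ≠ 0 := Ring.two_ne_zero hchar
  obtain ⟨n, hn⟩ := FiniteField.exists_nonsquare hchar
  haveI : Fact (∀ r : K, r ^ 2 ≠ n + 0 * r) := ⟨by
    intro r hr
    exact hn ⟨r, by linear_combination -hr⟩⟩
  have hn0 : n ≠ 0 := by
    rintro rfl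
    exact hn ⟨0, by simp⟩
  obtain ⟨d, c, hdc⟩ := exists_norm hcard n n hn0
  let β : F n := ⟨d, c⟩
  have hβ : ¬ IsSquare (QuadraticAlgebra.norm β) := by
    have : QuadraticAlgebra.norm β = n := by
      simp only [QuadraticAlgebra.norm_def, β]
      linear_combination hdc
    rw [this]; exact hn
  have hβ0 := beta_ne hβ
  have hfr : Module.finrank K (F n × F n) = Module.finrank K (Fin 4 → K) := by
    rw [finrank_prod, Module.finrank_fin_fun]
  let e : (F n × F n) ≃ₗ[K] (Fin 4 → K) := LinearEquiv.ofFinrankEq _ _ hfr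
  haveI : Finite (F n × F n) := Finite.of_injective e e.injective
  refine ⟨⟨_, (part_complete h2 hcard h5 hβ).map e⟩, ?_⟩
  rintro ⟨P, hP⟩
  exact no_deficiency_one (full_spread hβ) (full_disj h2 hβ0) (full_card h2 hβ0)
    (full_cover h2 hβ0) (hP.map e.symm)

/-- **`m(q) = 2` for every odd prime power `q ≥ 5`**: `PG(3,q)` has a complete partial packing of
deficiency `2`, and `2` is the minimum positive deficiency. In particular `m(q)` does not tend to
infinity as `q` runs through the prime powers. -/
theorem result :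
    (∀ q : ℕ, IsPrimePow q → Odd q → 5 ≤ q → HasDeficiency q 2 ∧ minDeficiency q = 2) ∧
    ¬ Filter.Tendsto minDeficiency
      (Filter.atTop ⊓ Filter.principal {q : ℕ | IsPrimePow q}) Filter.atTop := by
  have main : ∀ q : ℕ, IsPrimePow q → Odd q → 5 ≤ q →
      HasDeficiency q 2 ∧ minDeficiency q = 2 := by
    intro q hq hodd h5
    have h2 : HasDeficiency q 2 := by
      obtain ⟨p, k, hp, hk, rfl⟩ := (isPrimePow_nat_iff q).mp hq
      haveI : Fact p.Prime := ⟨hp⟩
      haveI : Fintype (GaloisField p k) := Fintype.ofFinite _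
      have hc : Fintype.card (GaloisField p k) = p ^ k := by
        rw [← Nat.card_eq_fintype_card]; exact GaloisField.card p k hk.ne'
      exact ⟨GaloisField p k, inferInstance, inferInstance, hc,
        (field_case (GaloisField p k) (by rw [hc]; exact hodd) (by rw [hc]; exact h5)).1⟩
    refine ⟨h2, ?_⟩
    have hmem : (2 : ℕ) ∈ {d | 0 < d ∧ HasDeficiency q d} := ⟨by norm_num, h2⟩
    apply le_antisymm (Nat.sInf_le hmem)
    obtain ⟨hpos, K, _, _, hc, P, hP⟩ := Nat.sInf_mem ⟨2, hmem⟩
    by_contra hlt
    have h1 : sInf {d | 0 < d ∧ HasDeficiency q d} = 1 := by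
      unfold minDeficiency at hlt
      omega
    rw [h1] at hP
    exact (field_case K (by rw [hc]; exact hodd) (by rw [hc]; exact h5)).2 ⟨P, hP⟩
  refine ⟨main, ?_⟩
  intro h
  have h3 := (h.eventually (Filter.eventually_gt_atTop 2))
  rw [Filter.eventually_inf_principal, Filter.eventually_atTop] at h3
  obtain ⟨N, hN⟩ := h3
  obtain ⟨p, hp1, hp⟩ := Nat.exists_infinite_primes (max N 5)
  have hp5 : 5 ≤ p := le_trans (le_max_right _ _) hp1
  have hpp : IsPrimePow p := hp.isPrimePow
  have hodd : Odd p := hp.odd_of_ne_two (by omega)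
  have := hN p (le_trans (le_max_left _ _) hp1) hpp
  rw [(main p hpp hodd hp5).2] at this
  exact lt_irrefl _ this

end Pool.Agent.Results.MP_9569f1_co.MinDeficiencyTwo
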